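import Pool.Agent.ABC3.Stmts
import Pool.Agent.Helper63_AT3.Sums

set_option autoImplicit false

/-! Row ADD of the squad ABC3: an AT-basis over `ZMod 3` is an additive basis for lists of size 2. -/

namespace Pool.Agent.ABC3.H99

open Matrix

theorem add : ADDStmt := by
  intro n A hA x hx y
  obtain ⟨z, hz, hzy⟩ := Pool.Agent.H63AT3.sums (p := 3) Nat.prime_three (n := n)
    (fun c r => A r c) hA (fun c => x c 0) (fun c => x c 1) hx y
  classical
  refine ⟨fun c => if z c = x c 0 then 0 else 1, fun r => ?_⟩
  have h := congrFun hzy r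
  rw [Finset.sum_apply] at h
  rw [← h]
  refine Finset.sum_congr rfl (fun c _ => ?_)
  have h1 : x c (if z c = x c 0 then 0 else 1) = z c := by
    by_cases h0 : z c = x c 0
    · rw [if_pos h0, h0]
    · rw [if_neg h0]
      rcases hz c with h2 | h2
      · exact absurd h2 h0
      · exact h2.symm
  show A r c * x c (if z c = x c 0 then 0 else 1) = (z c • (fun r => A r c)) r
  rw [h1, Pi.smul_apply, smul_eq_mul, mul_comm]

end Pool.Agent.ABC3.H99
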