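import Pool.Agent.ABC3.Stmts

set_option autoImplicit false

/-! Row FOU of the squad ABC3: four invertible matrices. -/

namespace Pool.Agent.ABC3.H99

open Matrix

theorem colCount {K : Type} [Field K] {n : ℕ} (B : Matrix (Fin n) (Fin n) K) (hB : B.det ≠ 0)
    (U : Submodule K (Fin n → K)) (s : Finset (Fin n)) (hs : ∀ i ∈ s, (fun r => B r i) ∈ U) :
    s.card ≤ Module.finrank K U := by
  classical
  have hli : LinearIndependent K (fun i : Fin n => fun r => B r i) :=
    Matrix.linearIndependent_cols_of_det_ne_zero hB
  have h1 : LinearIndependent K (fun i : s => (fun r => B r (i : Fin n))) :=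
    hli.comp (fun i : s => (i : Fin n)) Subtype.val_injective
  have h2 : LinearIndependent K (fun i : s => (⟨fun r => B r (i : Fin n), hs i i.2⟩ : U)) := by
    apply LinearIndependent.of_comp U.subtype
    exact h1
  have h3 := h2.fintype_card_le_finrank
  simpa using h3

theorem fou (h : GENStmt) : FOUStmt := by
  intro K _ _ n B hB
  classical
  obtain ⟨f, hf, hp⟩ := h K n (Fin 4 × Fin n) (Matrix.of fun r c => B c.1 r c.2) (fun U _ => by
    have hcard : Nat.card {c : Fin 4 × Fin n //
        (fun r => (Matrix.of fun r (c : Fin 4 × Fin n) => B c.1 r c.2) r c) ∉ U} =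
        (Finset.univ.filter (fun c : Fin 4 × Fin n => (fun r => B c.1 r c.2) ∉ U)).card := by
      rw [Nat.card_eq_fintype_card, Fintype.card_subtype]
      rfl
    rw [hcard]
    have hsum : (Finset.univ.filter (fun c : Fin 4 × Fin n => (fun r => B c.1 r c.2) ∈ U)).card +
        (Finset.univ.filter (fun c : Fin 4 × Fin n => (fun r => B c.1 r c.2) ∉ U)).card = 4 * n := by
      rw [Finset.card_filter_add_card_filter_not]
      simp
    have hle : (Finset.univ.filter (fun c : Fin 4 × Fin n => (fun r => B c.1 r c.2) ∈ U)).card ≤
        4 * Module.finrank K U := by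
      rw [Finset.card_eq_sum_card_fiberwise (f := Prod.fst) (t := Finset.univ)
        (fun _ _ => Finset.mem_coe.2 (Finset.mem_univ _))]
      calc _ ≤ ∑ _j : Fin 4, Module.finrank K U := by
            refine Finset.sum_le_sum (fun j _ => ?_)
            have hinj : ((Finset.univ.filter
                (fun c : Fin 4 × Fin n => (fun r => B c.1 r c.2) ∈ U)).filter
                (fun c => c.1 = j)).card ≤
                (Finset.univ.filter (fun i : Fin n => (fun r => B j r i) ∈ U)).card := by
              refine Finset.card_le_card_of_injOn Prod.snd (fun c hc => ?_) (fun c hc d hd hcd => ?_)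
              · simp only [Finset.coe_filter, Finset.mem_filter, Finset.mem_univ, true_and,
                  Set.mem_setOf_eq] at hc ⊢
                obtain ⟨h1, h2⟩ := hc
                rw [← h2]
                exact h1
              · simp only [Finset.coe_filter, Finset.mem_filter, Finset.mem_univ, true_and,
                  Set.mem_setOf_eq] at hc hd
                exact Prod.ext (hc.2.trans hd.2.symm) hcd
            refine hinj.trans (colCount (B j) (hB j) U _ (fun i hi => ?_))
            exact (Finset.mem_filter.1 hi).2
        _ = 4 * Module.finrank K U := by simp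
    omega)
  exact ⟨f, hf, hp⟩

end Pool.Agent.ABC3.H99
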